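import Pool.Agent.P.MP_0b48ca_al.Ans.Lift
import Pool.Agent.P.MP_0b48ca_al.W.Main

/-!
The finite `p`-groups of class 2 with `Aut G = Aut_c G`: necessary and sufficient conditions,
complete invariants, and wildness of the family.
-/

namespace Pool.Agent.Results.MP_0b48ca_al.Answer

open Pool.Agent.P.MP_0b48ca_al Ans W

theorem result (p : ℕ) [Fact p.Prime] :
    (∀ (G : Type) [Group G] [Finite G], IsPGroup p G → commutator G ≠ ⊥ →
      commutator G ≤ Subgroup.center G → List.TFAE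
        [AllCP G,
         (∀ N : Subgroup G, N.Normal → N.Characteristic) ∧
          (∃ (B : Type) (_ : CommGroup B), Nonempty (Abelianization G ≃* B × B)) ∧
          Monoid.exponent G = Monoid.exponent (commutator G) ^ 2,
         Subgroup.center G = commutator G ∧ HeightCamina G ∧
          ∀ γ η, LinIso (G := G) (H := G) γ η → ∀ a, γ a = a,
         Subgroup.center G = commutator G ∧ HeightCamina G ∧
          Monoid.exponent G = Monoid.exponent (commutator G) ^ 2 ∧
          ∀ γ η, LinIso (G := G) (H := G) γ η → ∀ a, γ a ∈ Subgroup.zpowers a]) ∧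
    (∀ (G H : Type) [Group G] [Group H] [Finite G] [Finite H],
      commutator G ≤ Subgroup.center G → commutator H ≤ Subgroup.center H →
      (Nonempty (G ≃* H) ↔ ∃ γ η, LinIso (G := G) (H := H) γ η)) ∧
    (∀ n, 0 < n → ∃ (k : ℕ) (R : Fin 4 → Matrix (Fin k) (Fin k) (ZMod p))
      (U : Matrix (Fin n) (Fin k) (ZMod p)) (C : Matrix (Fin k) (Fin n) (ZMod p)),
      ∀ D : Framed p k n, D.U = U → D.C = C →
        AllCP (Grp R D) ∧ Nat.card (Grp R D) = p ^ (2 * k * n + 3) ∧
        Subgroup.center (Grp R D) = commutator (Grp R D) ∧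
        Nat.card (commutator (Grp R D)) = p ^ 3 ∧
        ∀ D' : Framed p k n, Isoclinic (Grp R D) (Grp R D') ↔
          ∃ P : GL (Fin n) (ZMod p), P.1 * D.A = D'.A * P.1 ∧ P.1 * D.B = D'.B * P.1) := by
  refine ⟨fun G _ _ hG h1 h2 => ?_, fun G H _ _ _ _ hG hH => ?_, fun n hn => ?_⟩
  · have : Crit.Two G := ⟨h2⟩
    tfae_have 1 → 2 := fun h =>
      ⟨Crit.nc_of_cp h, Crit.sq_of_homCam (Crit.center_eq_of_cp hG h1 h) (Crit.homCam_of_cp h),
        Crit.exp_of_cp hG h1 h⟩
    tfae_have 2 → 1 := fun ⟨hN, hS, hE⟩ =>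
      Crit.cp_of_core hG h1 (Crit.center_eq_of_nc hG h1 hN hS hE) (Crit.homCam_of_nc hG hN hS) hE
        fun N hle => hN N (Subgroup.Normal.of_commutator_le G hle)
    tfae_have 1 → 3 := fun h =>
      ⟨Crit.center_eq_of_cp hG h1 h, Crit.height_of_homCam (Crit.homCam_of_cp h), rigid_of_cp h⟩
    tfae_have 3 → 1 := fun ⟨_, hH, h⟩ => cp_of_rigid (Crit.homCam_of_height hH) h
    tfae_have 1 → 4 := fun h =>
      ⟨Crit.center_eq_of_cp hG h1 h, Crit.height_of_homCam (Crit.homCam_of_cp h),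
        Crit.exp_of_cp hG h1 h, fun γ η hl a => by
          rw [rigid_of_cp h γ η hl a]; exact Subgroup.mem_zpowers a⟩
    tfae_have 4 → 1 := fun ⟨hZ, hH, hE, h⟩ =>
      Crit.cp_of_core hG h1 hZ (Crit.homCam_of_height hH) hE (char_of_lin h)
    tfae_finish
  · have : Crit.Two G := ⟨hG⟩
    have : Crit.Two H := ⟨hH⟩
    exact iso_iff
  · obtain ⟨K, _, _, _, hd, ⟨Δ⟩⟩ := exists_data p n
    have hk : n ≤ Module.finrank (ZMod p) (Fin 6 → K) := by
      rw [Module.finrank_pi_fintype]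
      simp only [Finset.sum_const, Finset.card_univ, Fintype.card_fin, smul_eq_mul]
      omega
    refine ⟨_, RR Δ (Module.finBasis _ _), Matrix.of fun j i => if i = j.castLE hk then 1 else 0,
      Matrix.of fun _ _ => 1, fun D hU hC => ?_⟩
    obtain ⟨h1, h2, ⟨e⟩⟩ := part_struct Δ (Module.finBasis _ _) ⟨0, hn⟩ D
    refine ⟨(part_cp Δ _ ⟨0, hn⟩ D).2 ?_, h1, h2, ?_, part_isoclinic Δ _ ⟨0, hn⟩ D⟩
    · rintro P μ ⟨-, -, h3, h4⟩
      rw [hU] at h3
      rw [hC] at h4
      have hP : P = 1 := by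
        ext j j'
        have := congrFun (congrFun h3 j) (j'.castLE hk)
        simpa [Matrix.mul_apply, Matrix.one_apply, eq_comm] using this
      subst hP
      have := congrFun (congrFun h4 (Fin.castLE hk ⟨0, hn⟩)) ⟨0, hn⟩
      exact ⟨rfl, Units.ext (by simpa using this.symm)⟩
    · rw [Nat.card_congr e.toEquiv]
      simp

end Pool.Agent.Results.MP_0b48ca_al.Answer
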