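import Pool.Agent.P.MP_0b48ca_al.G.Examples

/-!
Complete classification, for every prime `p`, of the finite `p`-groups `G` of nilpotency class 2
with commutator subgroup generated by at most two elements and `Aut G = Aut_c G`.
-/

namespace Pool.Agent.Results.MP_0b48ca_al.TwoGenerated

open Pool.Agent.P.MP_0b48ca_al.G Polynomial

theorem result (p : ℕ) [Fact p.Prime] :
    (∀ (a b : ℕ) (G : Type) [Group G], 0 < a + b → RankTwo p a b G →
      (AllClassPreserving G ↔ a = b ∧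
        ∃ f g : (ZMod (p ^ a))[X], Admissible f g ∧ Rigid f g ∧ Models f g G)) ∧
    (∀ a, 0 < a → ∀ f g : (ZMod (p ^ a))[X], Admissible f g →
      ∃ (G : Type) (_ : Group G), RankTwo p a a G ∧ Models f g G ∧
        Nat.card G = (p ^ a * Nat.card ((ZMod (p ^ a))[X] ⧸ den f g)) ^ 2) ∧
    (∀ a, 0 < a → ∀ f g f' g' : (ZMod (p ^ a))[X], Admissible f g → Admissible f' g' →
      ∀ (G G' : Type) [Group G] [Group G'], RankTwo p a a G → Models f g G →
        RankTwo p a a G' → Models f' g' G' →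
        (Nonempty (G ≃* G') ↔
          ∃ r s t u : ZMod (p ^ a), IsUnit (r * u - s * t) ∧ Related r s t u f g f' g')) ∧
    (∀ a, 0 < a → ∃ (G : Type) (_ : Group G), RankTwo p a a G ∧ AllClassPreserving G ∧
      Nat.card G = (p ^ a) ^ (if p ^ a = 2 then 12 else 8)) := by
  refine ⟨fun a b G _ hab hG => ⟨fun hA => ?_, ?_⟩, fun a ha f g h => ?_,
    fun a ha f g f' g' h h' G G' _ _ h1 h2 h3 h4 => ?_, fun a ha => ?_⟩
  · obtain rfl := eq_of_allCP hG hA
    obtain ⟨e, rfl⟩ : ∃ e, a = e + 1 := ⟨a - 1, by omega⟩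
    exact ⟨rfl, (part_two hG).1 hA⟩
  · rintro ⟨rfl, h⟩
    obtain ⟨e, rfl⟩ : ∃ e, a = e + 1 := ⟨a - 1, by omega⟩
    exact (part_two hG).2 h
  · obtain ⟨e, rfl⟩ : ∃ e, a = e + 1 := ⟨a - 1, by omega⟩
    obtain ⟨G, _, h1, h2⟩ := part_one h
    exact ⟨G, _, h1, h2, part_card h h1 h2⟩
  · obtain ⟨e, rfl⟩ : ∃ e, a = e + 1 := ⟨a - 1, by omega⟩
    exact part_three h h' h1 h2 h3 h4
  · obtain ⟨e, rfl⟩ : ∃ e, a = e + 1 := ⟨a - 1, by omega⟩
    exact part_four p e

end Pool.Agent.Results.MP_0b48ca_al.TwoGenerated
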