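import Pool.Agent.P.MP_0b48ca_al.W.Main

/-!
The class-2 `p`-groups with `Aut G = Aut_c G` and commutator subgroup `C_p × C_p × C_p` form a
wild family: their classification contains that of pairs of matrices under simultaneous
similarity.
-/

namespace Pool.Agent.Results.MP_0b48ca_al.Wild

open Pool.Agent.P.MP_0b48ca_al.W

theorem result (p : ℕ) [Fact p.Prime] (d : ℕ) :
    ∃ k, d ≤ k ∧ ∃ R : Fin 4 → Matrix (Fin k) (Fin k) (ZMod p), ∀ n, 0 < n →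
      (∀ D : Framed p k n, Nat.card (Grp R D) = p ^ (2 * k * n + 3) ∧
        Subgroup.center (Grp R D) = commutator (Grp R D) ∧
        Nonempty (commutator (Grp R D) ≃* Multiplicative (Fin 3 → ZMod p))) ∧
      (∀ D : Framed p k n, AllCP (Grp R D) ↔ ∀ P μ, Carries P μ D D → P = 1 ∧ μ = 1) ∧
      (∀ D D' : Framed p k n, Nonempty (Grp R D ≃* Grp R D') ↔ ∃ P μ, Carries P μ D D') ∧
      (∀ D D' : Framed p k n, Isoclinic (Grp R D) (Grp R D') ↔
        ∃ P : GL (Fin n) (ZMod p), P.1 * D.A = D'.A * P.1 ∧ P.1 * D.B = D'.B * P.1) ∧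
      (n ≤ k → ∀ A B : Matrix (Fin n) (Fin n) (ZMod p), ∃ D : Framed p k n, D.A = A ∧ D.B = B ∧
        AllCP (Grp R D)) := by
  obtain ⟨K, _, _, _, hd, ⟨Δ⟩⟩ := exists_data p d
  refine ⟨Module.finrank (ZMod p) (Fin 6 → K), ?_, RR Δ (Module.finBasis _ _), fun n hn =>
    ⟨part_struct Δ _ ⟨0, hn⟩, part_cp Δ _ ⟨0, hn⟩, part_iso Δ _ ⟨0, hn⟩,
      part_isoclinic Δ _ ⟨0, hn⟩, fun hk A B => ?_⟩⟩
  · rw [Module.finrank_pi_fintype]
    simp only [Finset.sum_const, Finset.card_univ, Fintype.card_fin, smul_eq_mul]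
    omega
  · obtain ⟨U, C, h⟩ := exists_rigid ⟨0, hn⟩ hk A B
    exact ⟨⟨A, B, U, C⟩, rfl, rfl, (part_cp Δ _ ⟨0, hn⟩ _).2 h⟩

end Pool.Agent.Results.MP_0b48ca_al.Wild
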